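import Pool.Agent.TH285.MG.Fam2

/-!
# Uniform discreteness for subfields of Galois extensions
-/

set_option autoImplicit false

namespace Pool.Agent.Y453.MG

open NumberField Module Filter Topology
open Pool.Agent.W238.Leh (act act_smul)
open Pool.Agent.H225R3.Marg
open Pool.Agent.H627.LP (Wnd InsepN Conj FrobAt exists_few smul_eq_of_congr exists_places)
open Pool.Agent.H420R3 (mi v_le_one v_lt_one_iff TP)
open Pool.Agent.TH285.MG

theorem frK_map (k K : Type) [Field k] [Field K] [Algebra k K] (p n : ℕ) (i : Fin (n + 1)) :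
    MvPolynomial.map (algebraMap k K) (frK k p n i) = frK K p n i := by
  unfold frK
  rw [MvPolynomial.map_map,
    RingHom.ext_int ((algebraMap k K).comp (Int.castRingHom k)) (Int.castRingHom K)]

theorem conj_base (k K : Type) [Field k] [NumberField k] [Field K] [NumberField K] [Algebra k K]
    (p n : ℕ) : Conj (1 : Matrix (Fin (n + 1)) (Fin (n + 1)) K) (frK k p n) (frK K p n) := by
  classical
  intro i
  have h1 : (fun l : Fin (n + 1) => ∑ j, MvPolynomial.C ((1 : Matrix _ _ K) l j) *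
      (MvPolynomial.X j : MvPolynomial (Fin (n + 1)) K)) = MvPolynomial.X := by
    funext l
    rw [Finset.sum_eq_single l]
    · rw [Matrix.one_apply_eq, map_one, one_mul]
    · intro j _ hj
      rw [Matrix.one_apply_ne (Ne.symm hj), map_zero, zero_mul]
    · simp
  rw [h1, MvPolynomial.bind₁_X_left, Finset.sum_eq_single i]
  · rw [Matrix.one_apply_eq, map_one, one_mul, frK_map]
    rfl
  · intro j _ hj
    rw [Matrix.one_apply_ne (Ne.symm hj), map_zero, zero_mul]
  · simp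

/-- the lower bound for canonical heights, for points of a subfield `L` of `M` -/
theorem low_sub (K : Type) [Field K] [NumberField K] (p : ℕ) (hp : p.Prime) (v : FinitePlace K)
    (hv : v (p : K) < 1) {m : ℕ} (hm : 1 ≤ m) (B e n : ℕ) : ∃ C : ℝ, 0 < C ∧
    ∀ (L M : Type) [Field L] [NumberField L] [Field M] [NumberField M] [Algebra K M] [Algebra L M]
      (x : Fin (n + 1) → L), x ≠ 0 → Wnd (frK ℚ p n) x →
      ∀ (τ : Gal(M/K)) (T : Finset (FinitePlace M)), T ⊆ TP M (mi v) →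
        (∀ w ∈ T, FrobAt w τ ((mi v).absNorm ^ m)) →
        finrank K M ≤ B * ∑ w ∈ T, (mi w).ramificationIdx (𝓞 K) * (mi w).inertiaDeg (𝓞 K) →
        (finrank L M ≤ e ∨ ∀ w ∈ T, (mi w).ramificationIdx (𝓞 K) ≤ e) →
      ∃ h : ℝ, Tendsto (fun j : ℕ => Height.logHeight ((act (frK ℚ p n))^[j] x) /
          ((finrank ℚ L : ℝ) * ((p ^ 1 : ℕ) : ℝ) ^ j)) atTop (𝓝 h) ∧
        1 / (C * finrank ℚ L) ≤ h := by
  obtain ⟨C, hC, hmain⟩ := Pool.Agent.H627.LP.main (k := ℚ) (K := K) (N := n) hp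
    (r := 1) le_rfl (frK ℚ p n) 1 (by simp) (frK K p n) (fun i => by
      rw [pow_one]
      exact frK_hom p n i) (conj_base ℚ K p n) v hv (frK_insep v p hp hv n) hm B
  refine ⟨C * (e + 1), by positivity, ?_⟩
  intro L M _ _ _ _ _ _ x hx hw τ T hT hτ hB he
  obtain ⟨h, hlim, hbd⟩ := hmain L M x hx hw
  refine ⟨h, hlim, ?_⟩
  obtain ⟨h1, h2⟩ := hbd τ T hT hτ hB
  have hL : (0 : ℝ) < finrank ℚ L := by
    have : 0 < finrank ℚ L := finrank_pos
    exact_mod_cast this
  have hL1 : (1 : ℝ) ≤ finrank ℚ L := by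
    have : 0 < finrank ℚ L := finrank_pos
    exact_mod_cast this
  rcases he with he | he
  · refine le_trans ?_ h1
    have hKM : (0 : ℝ) < finrank K M := by
      have : Module.Finite K M := Module.Finite.of_restrictScalars_finite ℚ K M
      have : 0 < finrank K M := finrank_pos
      exact_mod_cast this
    have h3 : (finrank K M : ℝ) ≤ (e + 1) * finrank ℚ L := by
      have h4 := finrank_mul_finrank ℚ K M
      have h5 : 0 < finrank ℚ K := finrank_pos
      have h6 : finrank K M ≤ finrank ℚ M := by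
        rw [← h4]
        exact Nat.le_mul_of_pos_left _ h5
      have h7 := finrank_mul_finrank ℚ L M
      have h8 : finrank K M ≤ (e + 1) * finrank ℚ L := by
        refine h6.trans ?_
        rw [← h7, mul_comm]
        exact Nat.mul_le_mul_right _ (he.trans (Nat.le_succ e))
      exact_mod_cast h8
    apply one_div_le_one_div_of_le (by positivity)
    calc C * (finrank K M : ℝ) ≤ C * ((e + 1) * finrank ℚ L) :=
          mul_le_mul_of_nonneg_left h3 hC.le
      _ = C * (e + 1) * finrank ℚ L := by ring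
  · refine le_trans ?_ (h2 (e + 1) fun w hw => (he w hw).trans (Nat.le_succ e))
    apply one_div_le_one_div_of_le (by positivity)
    push_cast
    exact le_mul_of_one_le_right (by positivity) hL1

/-- The torsion-free subgroups `Γ` of `G` that have a realization by matrices of size `n`, with at
most `s` noncompact embeddings, over a number field `L` with the following property. There is a
number field `M` that contains `L` and `K`, an automorphism `τ` of `M` over `K` and a finite set `T`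
of prime ideals of `M` above `P` such that
* `τ a ≡ a ^ (N(P) ^ m)` modulo all prime ideals in `T`, for all integers `a` of `M`,
* the sum over `T` of the local degrees over `K` is at least `[M : K] / B` (over all prime ideals
  above `P` the sum is `[M : K]`),
* `[M : L] ≤ e`, or the ramification indices over `K` of the prime ideals in `T` are at
  most `e`. -/
def FrobeniusFamily (K : Type) [Field K] [NumberField K] (P : Ideal (𝓞 K)) (m B e s n : ℕ)
    {G : Type*} [Group G] {M₀ : ℕ} (ρ : G →* Matrix (Fin M₀) (Fin M₀) ℂ) : Set (Subgroup G) :=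
  {Γ | (∀ γ ∈ Γ, ∀ N : ℕ, 0 < N → γ ^ N = 1 → γ = 1) ∧
    ∃ (L : Type) (_ : Field L) (_ : NumberField L) (S : Finset (L →+* ℂ))
      (_ : Realization ρ Γ L n S), S.card ≤ s ∧
    ∃ (M : Type) (_ : Field M) (_ : NumberField M) (_ : Algebra K M) (_ : Algebra L M)
      (τ : Gal(M/K)) (T : Finset (Ideal (𝓞 M))),
      (∀ 𝔓 ∈ T, 𝔓.IsPrime ∧ 𝔓.under (𝓞 K) = P ∧
        ∀ a : 𝓞 M, τ • a - a ^ (P.absNorm ^ m) ∈ 𝔓) ∧
      finrank K M ≤ B * ∑ 𝔓 ∈ T, 𝔓.ramificationIdx (𝓞 K) * 𝔓.inertiaDeg (𝓞 K) ∧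
      (finrank L M ≤ e ∨ ∀ 𝔓 ∈ T, 𝔓.ramificationIdx (𝓞 K) ≤ e)}

/-- The torsion-free subgroups `Γ` of `G` that have a realization by matrices of size `n`, with at
most `s` noncompact embeddings, over a subfield `L` of a finite Galois extension `M` of `K` such
that
* for every `σ` in the Galois group of `M / K` the power `σ ^ m` has at most `B` conjugates,
* `[M : L] ≤ e`, or the ramification indices over `K` of the prime ideals of `M` above `P` are at
  most `e`. -/
def GaloisFamily (K : Type) [Field K] [NumberField K] (P : Ideal (𝓞 K)) (m B e s n : ℕ)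
    {G : Type*} [Group G] {M₀ : ℕ} (ρ : G →* Matrix (Fin M₀) (Fin M₀) ℂ) : Set (Subgroup G) :=
  {Γ | (∀ γ ∈ Γ, ∀ N : ℕ, 0 < N → γ ^ N = 1 → γ = 1) ∧
    ∃ (L : Type) (_ : Field L) (_ : NumberField L) (S : Finset (L →+* ℂ))
      (_ : Realization ρ Γ L n S), S.card ≤ s ∧
    ∃ (M : Type) (_ : Field M) (_ : NumberField M) (_ : Algebra K M) (_ : Algebra L M)
      (_ : IsGalois K M),
      (∀ σ : Gal(M/K), (Set.range fun g : Gal(M/K) => g * σ ^ m * g⁻¹).ncard ≤ B) ∧
      (finrank L M ≤ e ∨ ∀ 𝔓 : Ideal (𝓞 M), 𝔓.IsPrime → 𝔓.under (𝓞 K) = P →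
        𝔓.ramificationIdx (𝓞 K) ≤ e)}

theorem uniform_sub (K : Type) [Field K] [NumberField K] (p : ℕ) (hp : p.Prime)
    (P : Ideal (𝓞 K)) (hP : P.IsPrime) (hpP : (p : 𝓞 K) ∈ P) (m B e s n : ℕ) (hm : 1 ≤ m)
    {G : Type*} [Group G] [TopologicalSpace G] {M₀ : ℕ}
    (ρ : G →* Matrix (Fin M₀) (Fin M₀) ℂ) (hρ : Continuous ρ) :
    UniformlyDiscrete (FrobeniusFamily K P m B e s n ρ) := by
  obtain ⟨v, hvP, hv⟩ := place_of_ideal K p hp P hP hpP
  obtain ⟨C, hC, hlow⟩ := low_sub K p hp v hv hm B e n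
  obtain ⟨ε, hε, hgap⟩ := gap_of ℚ p n s hp C hC
  have hP0 : mi v ≠ ⊥ := Pool.Agent.H420R3.mi_ne_bot v
  have hviP : mi v = P := hvP
  refine uniform_of ρ hρ _ s n ⟨ε, hε, ?_⟩
  rintro Γ ⟨htf, L, _, _, S, R, hSs, M, _, _, _, _, τ, T, hT, hB, he⟩
  refine ⟨htf, L, inferInstance, inferInstance, S, R, hSs, fun A hS' hA hout hN => ?_⟩
  refine hgap L A S (fun x hx hw => ?_) hS' hA hout hN
  obtain ⟨T', hT', hT'T, hsum⟩ := exists_places (P := mi v) hP0 T
    fun 𝔓 h𝔓 => ⟨(hT 𝔓 h𝔓).1, by rw [hviP]; exact (hT 𝔓 h𝔓).2.1⟩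
  have hfr : ∀ w ∈ T', FrobAt w τ ((mi v).absNorm ^ m) := by
    intro w hw'
    obtain ⟨h1, h2, h3⟩ := hT _ (hT'T w hw')
    rw [← hviP] at h3
    refine ⟨smul_eq_of_congr ?_ h1 (Pool.Agent.H420R3.mi_ne_bot w) h3, h3⟩
    apply pow_ne_zero
    intro h0
    exact hP0 (Ideal.absNorm_eq_zero_iff.mp h0)
  refine hlow L M x hx hw τ T' hT' hfr ?_ ?_
  · rw [hsum fun 𝔓 => 𝔓.ramificationIdx (𝓞 K) * 𝔓.inertiaDeg (𝓞 K)]
    exact hB
  · rcases he with he | he
    · exact Or.inl he
    · exact Or.inr fun w hw' => he _ (hT'T w hw')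

theorem uniform_galois_sub (K : Type) [Field K] [NumberField K] (p : ℕ) (hp : p.Prime)
    (P : Ideal (𝓞 K)) (hP : P.IsPrime) (hpP : (p : 𝓞 K) ∈ P) (m B e s n : ℕ) (hm : 1 ≤ m)
    {G : Type*} [Group G] [TopologicalSpace G] {M₀ : ℕ}
    (ρ : G →* Matrix (Fin M₀) (Fin M₀) ℂ) (hρ : Continuous ρ) :
    UniformlyDiscrete (GaloisFamily K P m B e s n ρ) := by
  obtain ⟨v, hvP, hv⟩ := place_of_ideal K p hp P hP hpP
  obtain ⟨C, hC, hlow⟩ := low_sub K p hp v hv hm B e n
  obtain ⟨ε, hε, hgap⟩ := gap_of ℚ p n s hp C hC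
  have hP0 : mi v ≠ ⊥ := Pool.Agent.H420R3.mi_ne_bot v
  have hviP : mi v = P := hvP
  refine uniform_of ρ hρ _ s n ⟨ε, hε, ?_⟩
  rintro Γ ⟨htf, L, _, _, S, R, hSs, M, _, _, _, _, _, hconj, he⟩
  refine ⟨htf, L, inferInstance, inferInstance, S, R, hSs, fun A hS' hA hout hN => ?_⟩
  refine hgap L A S (fun x hx hw => ?_) hS' hA hout hN
  obtain ⟨τ, T, hT, hτ, hTB⟩ := exists_few (K := K) (L := M) hP0 m B hconj
  refine hlow L M x hx hw τ T hT hτ hTB ?_
  rcases he with he | he
  · exact Or.inl he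
  · refine Or.inr fun w hw' => he _ ?_ ?_
    · exact w.maximalIdeal.isPrime
    · have hlo := Pool.Agent.H420R3.liesOver_of_mem hP0 (hT hw')
      rw [← hviP]
      exact hlo.over.symm

end Pool.Agent.Y453.MG
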